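import Pool.Graph.R_seed8.Helper158.Bridge
import Pool.Graph.R_seed8.Helper158.Perm

/-!
# Derivations with values in permutation modules
-/

set_option autoImplicit false

namespace Pool.Agent.H361.PD

open Pool.Agent.Helper158 Finsupp

variable {G : Type} [Group G]

/-- the group ring -/
abbrev R (G : Type) [Group G] : Type := MonoidAlgebra ℤ G

/-- exactness in degree `k + 1` of the dual complex with coefficients `M` -/
def Ex {P : ℕ → Type} [∀ i, AddCommGroup (P i)] [∀ i, Module (R G) (P i)]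
    (d : ∀ i, P (i + 1) →ₗ[R G] P i) (k : ℕ) (M : Type) [AddCommGroup M] [Module (R G) M] : Prop :=
  ∀ f : P (k + 1) →ₗ[R G] M, f ∘ₗ d (k + 1) = 0 → ∃ g : P k →ₗ[R G] M, g ∘ₗ d k = f

section

variable {P : ℕ → Type} [∀ i, AddCommGroup (P i)] [∀ i, Module (R G) (P i)]
  {d : ∀ i, P (i + 1) →ₗ[R G] P i} {ε : P 0 →+ ℤ}

theorem Ex.of_coh (h : Reso P d ε) [∀ i, Module.Projective (R G) (P i)] (k : ℕ)
    (hk : Subsingleton (groupCohomology (Rep.ofMulAction ℤ G G) (k + 1))) : Ex d k (R G) := by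
  intro f hf
  obtain ⟨π, _, h2⟩ := h.coh (k + 1)
  have h3 : π ⟨f, hf⟩ = 0 := Subsingleton.elim (α := groupCohomology (Rep.leftRegular ℤ G) (k + 1)) _ _
  exact (h2 _).1 h3

/-- free modules -/
theorem Ex.finsupp {k : ℕ} (hfin : Module.Finite (R G) (P (k + 1))) (h : Ex d k (R G)) (ι : Type) :
    Ex d k (ι →₀ R G) := by
  classical
  intro f hf
  obtain ⟨s, hs⟩ := hfin.fg_top
  let F : Finset ι := s.biUnion fun x => (f x).support
  have hF : ∀ (i : ι), i ∉ F → ∀ x, f x i = 0 := by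
    intro i hi x
    have hx : x ∈ Submodule.span (R G) (s : Set (P (k + 1))) := by rw [hs]; trivial
    induction hx using Submodule.span_induction with
    | mem x hx =>
      by_contra hne
      exact hi (Finset.mem_biUnion.2 ⟨x, hx, Finsupp.mem_support_iff.2 hne⟩)
    | zero => rw [map_zero]; rfl
    | add x y _ _ hx hy => rw [map_add, Finsupp.add_apply, hx, hy, add_zero]
    | smul r x _ hx => rw [map_smul, Finsupp.smul_apply, hx, smul_zero]
  have hg : ∀ i : ι, ∃ g : P k →ₗ[R G] R G, g ∘ₗ d k = Finsupp.lapply i ∘ₗ f := by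
    intro i
    apply h
    rw [LinearMap.comp_assoc, hf, LinearMap.comp_zero]
  choose g hg using hg
  refine ⟨∑ i ∈ F, (Finsupp.lsingle i) ∘ₗ g i, ?_⟩
  ext x i : 2
  rw [LinearMap.comp_apply, LinearMap.sum_apply]
  have h1 : ∀ j ∈ F, ((Finsupp.lsingle j) ∘ₗ g j) (d k x) = Finsupp.single j (f x j) := by
    intro j _
    rw [LinearMap.comp_apply]
    have h2 : g j (d k x) = f x j := LinearMap.congr_fun (hg j) x
    rw [h2]
    rfl
  rw [Finset.sum_congr rfl h1, Finsupp.finsetSum_apply]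
  by_cases hi : i ∈ F
  · rw [Finset.sum_eq_single i]
    · rw [Finsupp.single_eq_same]
    · intro j _ hj
      exact Finsupp.single_eq_of_ne (Ne.symm hj)
    · intro h3
      exact absurd hi h3
  · rw [hF i hi x]
    apply Finset.sum_eq_zero
    intro j hj
    apply Finsupp.single_eq_of_ne
    rintro rfl
    exact hi hj

/-- **the main chase** -/
theorem Ex.chase [Module.Projective (R G) (P 1)]
    (hfin2 : Module.Finite (R G) (P 2)) (hdd : ∀ (i : ℕ) (x : P (i + 2)), d i (d (i + 1) x) = 0)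
    (h1 : Ex d 0 (R G)) (h2 : Ex d 1 (R G))
    {M : Type} [AddCommGroup M] [Module (R G) M] (π : R G →ₗ[R G] M)
    (hK : ∀ s : Set (R G), s.Finite → (∀ x ∈ s, π x = 0) → ∃ (ι : Type) (Θ : (ι →₀ R G) →ₗ[R G] R G),
      Function.Injective Θ ∧ (∀ x, π (Θ x) = 0) ∧ ∀ x ∈ s, x ∈ LinearMap.range Θ)
    (f : P 1 →ₗ[R G] M) (hf : f ∘ₗ d 1 = 0) (hr : ∀ x, f x ∈ LinearMap.range π) :
    ∃ m : P 0 →ₗ[R G] M, m ∘ₗ d 0 = f := by
  -- lift
  obtain ⟨F, hF⟩ := Module.projective_lifting_property π.rangeRestrict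
    (f.codRestrict (LinearMap.range π) hr) π.surjective_rangeRestrict
  have hF' : ∀ x, π (F x) = f x := by
    intro x
    exact congrArg Subtype.val (LinearMap.congr_fun hF x)
  obtain ⟨s, hs⟩ := hfin2.fg_top
  obtain ⟨ι, Θ, hinj, hz, hmem⟩ := hK ((fun x => F (d 1 x)) '' (s : Set (P 2)))
    (s.finite_toSet.image _) (by
      rintro _ ⟨x, _, rfl⟩
      change π (F (d 1 x)) = 0
      rw [hF']
      exact LinearMap.congr_fun hf x)
  have hu : ∀ x, (F ∘ₗ d 1) x ∈ LinearMap.range Θ := by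
    intro x
    have hx : x ∈ Submodule.span (R G) (s : Set (P 2)) := by rw [hs]; trivial
    induction hx using Submodule.span_induction with
    | mem x hx => exact hmem _ ⟨x, hx, rfl⟩
    | zero => rw [map_zero]; exact Submodule.zero_mem _
    | add x y _ _ hx hy => rw [map_add]; exact Submodule.add_mem _ hx hy
    | smul r x _ hx => rw [map_smul]; exact Submodule.smul_mem _ _ hx
  let e := LinearEquiv.ofInjective Θ hinj
  let g : P 2 →ₗ[R G] (ι →₀ R G) := e.symm.toLinearMap ∘ₗ (F ∘ₗ d 1).codRestrict _ hu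
  have hg : ∀ x, Θ (g x) = F (d 1 x) := by
    intro x
    have h3 : e (g x) = (F ∘ₗ d 1).codRestrict _ hu x := e.apply_symm_apply _
    exact congrArg Subtype.val h3
  obtain ⟨l, hl⟩ := h2.finsupp hfin2 ι g (by
    ext1 x
    apply hinj
    rw [LinearMap.comp_apply, hg, LinearMap.zero_apply, map_zero]
    change F (d 1 (d 2 x)) = 0
    rw [hdd 1 x, map_zero])
  obtain ⟨m, hm⟩ := h1 (F - Θ ∘ₗ l) (by
    ext1 x
    rw [LinearMap.comp_apply, LinearMap.sub_apply, LinearMap.comp_apply, LinearMap.zero_apply]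
    have h3 : l (d 1 x) = g x := LinearMap.congr_fun hl x
    rw [h3, hg, sub_self])
  refine ⟨π ∘ₗ m, ?_⟩
  ext1 x
  rw [LinearMap.comp_apply, LinearMap.comp_apply]
  have h3 : m (d 0 x) = F x - Θ (l x) := LinearMap.congr_fun hm x
  rw [h3, map_sub, hz, sub_zero, hF']

end

end Pool.Agent.H361.PD
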