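import Pool.Agent.H361.PD.Orb

/-!
# Derivations into permutation modules with locally free stabilizers
-/

set_option autoImplicit false

namespace Pool.Agent.H361.PD

open Pool.Agent.Helper158 Finsupp

variable {G : Type} [Group G] {X : Type} [MulAction G X]

section

variable {P : ℕ → Type} [∀ i, AddCommGroup (P i)] [∀ i, Module (R G) (P i)]
  {d : ∀ i, P (i + 1) →ₗ[R G] P i} {ε : P 0 →+ ℤ}

theorem orbit_case (h : Reso P d ε) [∀ i, Module.Projective (R G) (P i)]
    (hfin2 : Module.Finite (R G) (P 2)) (h1 : Ex d 0 (R G)) (h2 : Ex d 1 (R G))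
    (x0 : X) (hfree : LocallyFree (MulAction.stabilizer G x0)) (φ : G → (X →₀ ℤ))
    (hφ : ∀ g h, φ (g * h) = φ g + permRep G X g (φ h))
    (hs : ∀ g, ∀ x ∈ (φ g).support, x ∈ MulAction.orbit G x0) :
    ∃ b : X →₀ ℤ, ∀ g, φ g = permRep G X g b - b := by
  obtain ⟨b, hb⟩ := principal (M := PM G X) (φ := φ) h (by
    intro g k
    exact (hφ g k).trans (congrArg (fun z : X →₀ ℤ => φ g + z) (of_smul (X := X) g (φ k)).symm))
    (LinearMap.range (pi0 G x0)) (fun g => mem_range x0 (φ g) (hs g))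
    (fun f hf hr => Ex.chase hfin2 (fun i x => h.dd i x) h1 h2 (pi0 G x0)
      (fun s hs hk => kernel x0 hfree s hs hk) f hf hr)
  refine ⟨b, fun g => ?_⟩
  exact (hb g).trans (congrArg (fun z : PM G X => z - b) (of_smul g b))

theorem orb_iff (g : G) (x u : X) : g • x ∈ MulAction.orbit G u ↔ x ∈ MulAction.orbit G u := by
  constructor
  · rintro ⟨k, hk⟩
    refine ⟨g⁻¹ * k, ?_⟩
    change (g⁻¹ * k) • u = x
    rw [mul_smul, inv_smul_eq_iff]
    exact hk
  · rintro ⟨k, rfl⟩
    exact ⟨g * k, mul_smul g k u⟩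

theorem filter_permRep (p : X → Prop) [DecidablePred p] (hp : ∀ (g : G) x, p (g • x) ↔ p x) (g : G)
    (f : X →₀ ℤ) : Finsupp.filter p (permRep G X g f) = permRep G X g (Finsupp.filter p f) := by
  ext x
  rw [permRep_apply, Finsupp.filter_apply, Finsupp.filter_apply, permRep_apply]
  have h1 := hp g⁻¹ x
  by_cases h2 : p x
  · rw [if_pos h2, if_pos (h1.2 h2)]
  · rw [if_neg h2, if_neg fun h3 => h2 (h1.1 h3)]

theorem finset_case (h : Reso P d ε) [∀ i, Module.Projective (R G) (P i)]
    (hfin2 : Module.Finite (R G) (P 2)) (h1 : Ex d 0 (R G)) (h2 : Ex d 1 (R G))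
    (U : Finset X) (hfree : ∀ x ∈ U, LocallyFree (MulAction.stabilizer G x)) :
    ∀ φ : G → (X →₀ ℤ), (∀ g h, φ (g * h) = φ g + permRep G X g (φ h)) →
    (∀ g, ∀ x ∈ (φ g).support, ∃ u ∈ U, x ∈ MulAction.orbit G u) →
    ∃ b : X →₀ ℤ, ∀ g, φ g = permRep G X g b - b := by
  classical
  induction U using Finset.induction_on with
  | empty =>
    intro φ _ hs
    refine ⟨0, fun g => ?_⟩
    rw [map_zero, sub_zero, ← Finsupp.support_eq_empty, Finset.eq_empty_iff_forall_notMem]
    intro x hx
    obtain ⟨u, hu, -⟩ := hs g x hx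
    exact absurd hu (Finset.notMem_empty u)
  | insert u U _ ih =>
    intro φ hφ hs
    let p : X → Prop := fun x => x ∈ MulAction.orbit G u
    have hp : ∀ (g : G) x, p (g • x) ↔ p x := by
      intro g x
      exact orb_iff g x u
    have hp' : ∀ (g : G) x, ¬ p (g • x) ↔ ¬ p x := fun g x => not_congr (hp g x)
    obtain ⟨b1, hb1⟩ := orbit_case h hfin2 h1 h2 u (hfree u (Finset.mem_insert_self u U)) (fun g => (φ g).filter p)
      (by
        intro g k
        rw [hφ, ← filter_permRep p hp, Finsupp.filter_add])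
      (by
        intro g x hx
        rw [Finsupp.support_filter, Finset.mem_filter] at hx
        exact hx.2)
    obtain ⟨b2, hb2⟩ := ih (fun x hx => hfree x (Finset.mem_insert_of_mem hx)) (fun g => (φ g).filter fun x => ¬ p x)
      (by
        intro g k
        rw [hφ, ← filter_permRep _ hp', Finsupp.filter_add])
      (by
        intro g x hx
        rw [Finsupp.support_filter, Finset.mem_filter] at hx
        obtain ⟨v, hv, hxv⟩ := hs g x hx.1
        rcases Finset.mem_insert.1 hv with rfl | hv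
        · exact absurd hxv hx.2
        · exact ⟨v, hv, hxv⟩)
    refine ⟨b1 + b2, fun g => ?_⟩
    have h3 : φ g = (φ g).filter p + (φ g).filter fun x => ¬ p x :=
      (Finsupp.filter_add_filter_not (φ g) p).symm
    rw [h3, hb1, hb2, map_add]
    abel

theorem der_principal (h : Reso P d ε) [∀ i, Module.Projective (R G) (P i)]
    (hfin2 : Module.Finite (R G) (P 2)) (h1 : Ex d 0 (R G)) (h2 : Ex d 1 (R G)) (hfg : Group.FG G)
    (φ : G → (X →₀ ℤ)) (hφ : ∀ g h, φ (g * h) = φ g + permRep G X g (φ h))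
    (hfree : ∀ g, ∀ x ∈ (φ g).support, LocallyFree (MulAction.stabilizer G x)) :
    ∃ b : X →₀ ℤ, ∀ g, φ g = permRep G X g b - b := by
  classical
  obtain ⟨S, hS⟩ := hfg.out
  refine finset_case h hfin2 h1 h2 (S.biUnion fun s => (φ s).support) (fun x hx => by
    obtain ⟨s, -, hx⟩ := Finset.mem_biUnion.1 hx
    exact hfree s x hx) φ hφ ?_
  intro g
  have hg : g ∈ Subgroup.closure (S : Set G) := by rw [hS]; trivial
  have hsm : ∀ (g : G) (f : X →₀ ℤ) (x : X), x ∈ (permRep G X g f).support → g⁻¹ • x ∈ f.support := by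
    intro g f x hx
    rw [Finsupp.mem_support_iff, permRep_apply] at hx
    exact Finsupp.mem_support_iff.2 hx
  induction hg using Subgroup.closure_induction with
  | mem s hs =>
    intro x hx
    exact ⟨x, Finset.mem_biUnion.2 ⟨s, hs, hx⟩, MulAction.mem_orbit_self x⟩
  | one =>
    intro x hx
    have h3 := hφ 1 1
    rw [mul_one, map_one, Module.End.one_apply, left_eq_add] at h3
    rw [h3] at hx
    exact absurd hx (Finset.notMem_empty x)
  | mul a b _ _ ha hb =>
    intro x hx
    rw [hφ] at hx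
    rcases Finset.mem_union.1 (Finsupp.support_add hx) with h3 | h3
    · exact ha x h3
    · obtain ⟨u, hu, h4⟩ := hb _ (hsm a _ x h3)
      exact ⟨u, hu, (orb_iff _ _ _).1 h4⟩
  | inv a _ ha =>
    intro x hx
    have h3 := hφ a a⁻¹
    have h4 := hφ 1 1
    rw [mul_one, map_one, Module.End.one_apply, left_eq_add] at h4
    rw [mul_inv_cancel, h4] at h3
    have h5 : φ a⁻¹ = - permRep G X a⁻¹ (φ a) := by
      have h6 : permRep G X a⁻¹ (φ a + permRep G X a (φ a⁻¹)) = 0 := by rw [← h3, map_zero]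
      rw [map_add, ← Module.End.mul_apply, ← map_mul, inv_mul_cancel, map_one,
        Module.End.one_apply] at h6
      exact (neg_eq_of_add_eq_zero_right h6).symm
    rw [h5, Finsupp.support_neg] at hx
    obtain ⟨u, hu, h6⟩ := ha _ (hsm _ _ x hx)
    exact ⟨u, hu, (orb_iff _ _ _).1 h6⟩

end

end Pool.Agent.H361.PD
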