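import Pool.Agent.H361.PD.Alg

/-!
# Principal derivations
-/

set_option autoImplicit false

namespace Pool.Agent.H361.PD

open Pool.Agent.Helper158 Finsupp

variable {G : Type} [Group G]

/-- derivations with values in a module -/
def IsDer {M : Type} [AddCommGroup M] [Module (R G) M] (φ : G → M) : Prop :=
  ∀ g h, φ (g * h) = φ g + MonoidAlgebra.of ℤ G g • φ h

/-- augmentation -/
noncomputable def aug (G : Type) [Group G] : R G →ₐ[ℤ] ℤ :=
  MonoidAlgebra.lift ℤ ℤ G (1 : G →* ℤ)

theorem aug_of (g : G) : aug G (MonoidAlgebra.of ℤ G g) = 1 := by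
  rw [aug, MonoidAlgebra.lift_of]
  rfl

/-- linear extension -/
noncomputable def lx {M : Type} [AddCommGroup M] (φ : G → M) : R G →+ M :=
  (Finsupp.liftAddHom (fun g => ((zmultiplesHom M) (φ g) : ℤ →+ M))).comp
    (MonoidAlgebra.coeffAddEquiv (R := ℤ) (M := G)).toAddMonoidHom

theorem lx_of {M : Type} [AddCommGroup M] (φ : G → M) (g : G) :
    lx φ (MonoidAlgebra.of ℤ G g) = φ g := by
  unfold lx
  rw [AddMonoidHom.comp_apply]
  change (Finsupp.liftAddHom (fun g => ((zmultiplesHom M) (φ g) : ℤ →+ M))) (Finsupp.single g 1) = φ g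
  rw [Finsupp.liftAddHom_apply_single]
  simp

theorem IsDer.lx' {M : Type} [AddCommGroup M] [Module (R G) M] {φ : G → M} (h : IsDer φ)
    (x y : R G) : lx φ (x * y) = aug G y • lx φ x + x • lx φ y := by
  induction y using MonoidAlgebra.induction_on with
  | of b =>
    induction x using MonoidAlgebra.induction_on with
    | of a =>
      rw [← map_mul, lx_of, lx_of, lx_of, aug_of, one_smul, h a b]
    | add a b ha hb =>
      rw [add_mul, map_add, map_add, ha, hb, smul_add, add_smul]
      abel
    | smul n a ha =>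
      rw [smul_mul_assoc, map_zsmul, map_zsmul, ha, smul_add, smul_comm, smul_assoc]
  | add a b ha hb =>
    rw [mul_add, map_add, map_add, ha, hb, map_add, smul_add, add_smul]
    abel
  | smul n a ha =>
    have h1 : aug G (n • a) = n • aug G a := map_zsmul _ _ _
    have h2 : lx φ (n • a) = n • lx φ a := map_zsmul _ _ _
    have h3 : lx φ (n • (x * a)) = n • lx φ (x * a) := map_zsmul _ _ _
    rw [mul_smul_comm, h1, h2, h3, ha, smul_add, smul_assoc, smul_comm n x]

section

variable {P : ℕ → Type} [∀ i, AddCommGroup (P i)] [∀ i, Module (R G) (P i)]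
  {d : ∀ i, P (i + 1) →ₗ[R G] P i} {ε : P 0 →+ ℤ}

theorem eps_smul (h : Reso P d ε) (r : R G) (x : P 0) : ε (r • x) = aug G r * ε x := by
  induction r using MonoidAlgebra.induction_on with
  | of g => rw [aug_of, one_mul]; exact h.equi g x
  | add a b ha hb => rw [add_smul, map_add, map_add, ha, hb, add_mul]
  | smul n a ha => rw [smul_assoc, map_zsmul, ha, map_smul, smul_mul_assoc]

theorem principal (h : Reso P d ε) [Module.Projective (R G) (P 0)] {M : Type} [AddCommGroup M]
    [Module (R G) M] {φ : G → M} (hφ : IsDer φ) (N : Submodule (R G) M) (hN : ∀ g, φ g ∈ N)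
    (hf : ∀ f : P 1 →ₗ[R G] M, f ∘ₗ d 1 = 0 → (∀ x, f x ∈ N) →
      ∃ m : P 0 →ₗ[R G] M, m ∘ₗ d 0 = f) :
    ∃ b : M, ∀ g, φ g = MonoidAlgebra.of ℤ G g • b - b := by
  classical
  obtain ⟨s, hs⟩ := Module.projective_def'.1 (inferInstance : Module.Projective (R G) (P 0))
  let tb : (P 0 →₀ R G) →ₗ[R G] R G := Finsupp.linearCombination (R G) (fun y => ((ε y : ℤ) : R G))
  let t : P 0 →ₗ[R G] R G := tb ∘ₗ s
  have htb : ∀ x, aug G (tb x) = ε (Finsupp.linearCombination (R G) id x) := by
    intro x
    induction x using Finsupp.induction_linear with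
    | zero => simp
    | add f g hf hg => rw [map_add, map_add, map_add, map_add, hf, hg]
    | single y r =>
      simp only [tb]
      rw [Finsupp.linearCombination_single, Finsupp.linearCombination_single, smul_eq_mul, map_mul,
        id, eps_smul h]
      simp
  have ht : ∀ x, aug G (t x) = ε x := by
    intro x
    change aug G (tb (s x)) = ε x
    rw [htb]
    congr 1
    exact LinearMap.congr_fun hs x
  have hlN : ∀ r : R G, lx φ r ∈ N := by
    intro r
    induction r using MonoidAlgebra.induction_on with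
    | of g => rw [lx_of]; exact hN g
    | add a b ha hb => rw [map_add]; exact N.add_mem ha hb
    | smul n a ha => rw [map_zsmul]; exact zsmul_mem ha n
  let f : P 1 →ₗ[R G] M :=
    { toFun := fun p => lx φ (t (d 0 p))
      map_add' := fun p q => by rw [map_add, map_add, map_add]
      map_smul' := fun r p => by
        rw [map_smul, map_smul, smul_eq_mul, hφ.lx', ht]
        have h0 : ε (d 0 p) = 0 := (h.ex0 _).2 ⟨p, rfl⟩
        rw [h0, zero_smul, zero_add]
        rfl }
  obtain ⟨m, hm⟩ := hf f (by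
    ext1 x
    change lx φ (t (d 0 (d 1 x))) = 0
    rw [h.dd 0 x, map_zero, map_zero]) (fun x => hlN _)
  obtain ⟨a, ha⟩ := h.surj 1
  refine ⟨m a - lx φ (t a), fun g => ?_⟩
  have h1 : ε (MonoidAlgebra.of ℤ G g • a - a) = 0 := by
    rw [map_sub, h.equi, sub_self]
  obtain ⟨p, hp⟩ := (h.ex0 _).1 h1
  have h2 : m (d 0 p) = lx φ (t (d 0 p)) := LinearMap.congr_fun hm p
  rw [hp, map_sub, map_sub, map_smul, map_smul, map_sub, smul_eq_mul, hφ.lx', ht, ha, one_smul,
    lx_of] at h2
  rw [smul_sub]
  have h3 : φ g = MonoidAlgebra.of ℤ G g • m a - m a -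
      (MonoidAlgebra.of ℤ G g • lx φ (t a) - lx φ (t a)) := by
    rw [h2]; abel
  rw [h3]
  abel

end

end Pool.Agent.H361.PD
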