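import Pool.Agent.H361.PD.Der

/-!
# Permutation modules with locally free stabilizers
-/

set_option autoImplicit false

namespace Pool.Agent.H361.PD

open Pool.Agent.Helper158 Finsupp

/-- every finitely generated subgroup is free -/
def LocallyFree (C : Type) [Group C] : Prop := ∀ K : Subgroup C, K.FG → IsFreeGroup K

variable {G : Type} [Group G] {X : Type} [MulAction G X]

/-- the permutation module -/
def PM (G X : Type) [Group G] [MulAction G X] : Type := X →₀ ℤ

noncomputable instance : AddCommGroup (PM G X) := inferInstanceAs (AddCommGroup (X →₀ ℤ))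

noncomputable instance : Module (R G) (PM G X) :=
  Module.compHom (X →₀ ℤ) (MonoidAlgebra.lift ℤ (Module.End ℤ (X →₀ ℤ)) G (permRep G X)).toRingHom

theorem of_smul (g : G) (m : PM G X) : MonoidAlgebra.of ℤ G g • m = permRep G X g m := by
  change (MonoidAlgebra.lift ℤ (Module.End ℤ (X →₀ ℤ)) G (permRep G X)) (MonoidAlgebra.of ℤ G g) m = _
  rw [MonoidAlgebra.lift_of]

/-- the orbit map -/
noncomputable def pi0 (G : Type) [Group G] {X : Type} [MulAction G X] (x0 : X) : R G →ₗ[R G] PM G X :=
  LinearMap.toSpanSingleton (R G) (PM G X) (Finsupp.single x0 1 : X →₀ ℤ)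

theorem pi0_of (x0 : X) (g : G) :
    pi0 G x0 (MonoidAlgebra.of ℤ G g) = (Finsupp.single (g • x0) 1 : X →₀ ℤ) := by
  refine (of_smul (X := X) g (Finsupp.single x0 1 : X →₀ ℤ)).trans ?_
  exact permRep_single g x0 1

theorem pi0_eq (x0 : X) (r : R G) :
    pi0 G x0 r = (Finsupp.mapDomain (fun g : G => g • x0) r.coeff : X →₀ ℤ) := by
  induction r using MonoidAlgebra.induction_on with
  | of g =>
    rw [pi0_of, MonoidAlgebra.of_apply, MonoidAlgebra.coeff_single, Finsupp.mapDomain_single]
  | add a b ha hb => rw [map_add, ha, hb, MonoidAlgebra.coeff_add, Finsupp.mapDomain_add]; rfl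
  | smul n a ha =>
    rw [map_zsmul, ha, MonoidAlgebra.coeff_smul, Finsupp.mapDomain_smul]; rfl

theorem single_mem_range (x0 x : X) (hx : x ∈ MulAction.orbit G x0) (n : ℤ) :
    (Finsupp.single x n : X →₀ ℤ) ∈ ((LinearMap.range (pi0 G x0)).toAddSubgroup : Set (PM G X)) := by
  obtain ⟨g, rfl⟩ := hx
  refine ⟨n • MonoidAlgebra.of ℤ G g, ?_⟩
  rw [map_zsmul, pi0_of]
  exact (Finsupp.smul_single n (g • x0) (1 : ℤ)).trans (by simp)

theorem mem_range (x0 : X) (m : PM G X)
    (hm : ∀ x ∈ (show X →₀ ℤ from m).support, x ∈ MulAction.orbit G x0) :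
    m ∈ LinearMap.range (pi0 G x0) := by
  have h1 : m = (show X →₀ ℤ from m).sum Finsupp.single := (Finsupp.sum_single _).symm
  rw [h1, Finsupp.sum]
  exact AddSubgroup.sum_mem ((LinearMap.range (pi0 G x0)).toAddSubgroup) fun x hx =>
    single_mem_range x0 x (hm x hx) _

theorem coeff_mul_of (r : R G) (g : G) :
    (r * MonoidAlgebra.of ℤ G g).coeff = permRep Gᵐᵒᵖ G (MulOpposite.op g) r.coeff := by
  induction r using MonoidAlgebra.induction_on with
  | of h =>
    rw [← map_mul, MonoidAlgebra.of_apply, MonoidAlgebra.of_apply, MonoidAlgebra.coeff_single,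
      MonoidAlgebra.coeff_single, permRep_single]
    rfl
  | add a b ha hb =>
    rw [add_mul, MonoidAlgebra.coeff_add, MonoidAlgebra.coeff_add, map_add, ha, hb]
  | smul n a ha =>
    rw [smul_mul_assoc, MonoidAlgebra.coeff_smul, MonoidAlgebra.coeff_smul, map_zsmul, ha]

/-- generators of the kernel -/
noncomputable def gen (c : G) : R G := MonoidAlgebra.of ℤ G c - 1

theorem ker_span (x0 : X) (r : R G) (hr : pi0 G x0 r = 0) :
    r ∈ Submodule.span (R G) (gen '' (MulAction.stabilizer G x0 : Set G)) := by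
  have h1 := mem_of_mapDomain_eq_zero (G := Gᵐᵒᵖ) (X := G)
    (MulOpposite.op '' (MulAction.stabilizer G x0 : Set G))
    (((Submodule.span (R G) (gen '' (MulAction.stabilizer G x0 : Set G))).toAddSubgroup).comap
      (MonoidAlgebra.coeffAddEquiv (R := ℤ) (M := G)).symm.toAddMonoidHom)
    (by
      rintro _ ⟨c, hc, rfl⟩ x
      rw [AddSubgroup.mem_comap]
      have h2 : (MonoidAlgebra.coeffAddEquiv (R := ℤ) (M := G)).symm.toAddMonoidHom
          (Finsupp.single (MulOpposite.op c • x) 1 - Finsupp.single x 1)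
          = MonoidAlgebra.of ℤ G x • gen c := by
        rw [map_sub, gen, smul_sub, smul_eq_mul, smul_eq_mul, mul_one, ← map_mul]
        rfl
      rw [h2]
      exact Submodule.smul_mem _ _ (Submodule.subset_span ⟨c, hc, rfl⟩))
    (fun g : G => g • x0)
    (by
      intro x y hxy
      refine ⟨MulOpposite.op (x⁻¹ * y), Subgroup.subset_closure ⟨x⁻¹ * y, ?_, rfl⟩, ?_⟩
      · change (x⁻¹ * y) • x0 = x0
        rw [mul_smul, ← hxy]
        exact inv_smul_smul x x0
      · change x * (x⁻¹ * y) = y
        rw [mul_inv_cancel_left])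
    r.coeff (by rw [← pi0_eq, hr]; rfl)
  exact h1

theorem fin_span (x0 : X) (r : R G)
    (hr : r ∈ Submodule.span (R G) (gen '' (MulAction.stabilizer G x0 : Set G))) :
    ∃ F : Set G, F.Finite ∧ F ⊆ MulAction.stabilizer G x0 ∧
      r ∈ Submodule.span (R G) (gen '' F) := by
  induction hr using Submodule.span_induction with
  | mem x hx =>
    obtain ⟨c, hc, rfl⟩ := hx
    exact ⟨{c}, Set.finite_singleton c, Set.singleton_subset_iff.2 hc,
      Submodule.subset_span ⟨c, rfl, rfl⟩⟩
  | zero => exact ⟨∅, Set.finite_empty, Set.empty_subset _, Submodule.zero_mem _⟩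
  | add x y _ _ hx hy =>
    obtain ⟨F, h1, h2, h3⟩ := hx
    obtain ⟨F', h1', h2', h3'⟩ := hy
    exact ⟨F ∪ F', h1.union h1', Set.union_subset h2 h2', Submodule.add_mem _
      (Submodule.span_mono (Set.image_mono Set.subset_union_left) h3)
      (Submodule.span_mono (Set.image_mono Set.subset_union_right) h3')⟩
  | smul a x _ hx =>
    obtain ⟨F, h1, h2, h3⟩ := hx
    exact ⟨F, h1, h2, Submodule.smul_mem _ _ h3⟩

theorem fin_span' (x0 : X) (s : Set (R G)) (hs : s.Finite) (h : ∀ x ∈ s, pi0 G x0 x = 0) :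
    ∃ F : Set G, F.Finite ∧ F ⊆ MulAction.stabilizer G x0 ∧
      ∀ x ∈ s, x ∈ Submodule.span (R G) (gen '' F) := by
  have h1 : ∀ x ∈ s, ∃ F : Set G, F.Finite ∧ F ⊆ MulAction.stabilizer G x0 ∧
      x ∈ Submodule.span (R G) (gen '' F) := fun x hx => fin_span x0 x (ker_span x0 x (h x hx))
  choose! F hF1 hF2 hF3 using h1
  refine ⟨⋃ x ∈ s, F x, hs.biUnion hF1, Set.iUnion₂_subset hF2, fun x hx => ?_⟩
  exact Submodule.span_mono (Set.image_mono (Set.subset_iUnion₂_of_subset x hx (le_refl _))) (hF3 x hx)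

/-- the Fox map -/
noncomputable def theta {ι : Type} (j : FreeGroup ι →* G) : (ι →₀ R G) →ₗ[R G] R G :=
  Finsupp.linearCombination (R G) (fun i => gen (j (FreeGroup.of i))⁻¹)

theorem theta_injective {ι : Type} (j : FreeGroup ι →* G) (hj : Function.Injective j) :
    Function.Injective (theta j) := by
  classical
  let j' : FreeGroup ι × Unit →* Gᵐᵒᵖ :=
    { toFun := fun v => MulOpposite.op (j v.1)⁻¹
      map_one' := by simp
      map_mul' := fun v w => by
        rw [Prod.fst_mul, map_mul, mul_inv_rev, MulOpposite.op_mul] }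
  obtain ⟨D, hD, -⟩ := exists_fox (G := Gᵐᵒᵖ) (X := G) j' (by
    intro v x hv
    change x * (j v.1)⁻¹ = x at hv
    have h1 : (j v.1)⁻¹ = 1 := by simpa using hv
    rw [inv_eq_one] at h1
    have h2 : v.1 = 1 := hj (by rw [h1, map_one])
    exact Prod.ext h2 rfl)
  have h1 : ∀ (i k : ι) (r : R G), D i (r * gen (j (FreeGroup.of k))⁻¹).coeff =
      if i = k then r.coeff else 0 := by
    intro i k r
    have h2 : (r * gen (j (FreeGroup.of k))⁻¹).coeff =
        permRep Gᵐᵒᵖ G (j' (FreeGroup.of k, 1)) r.coeff - r.coeff := by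
      rw [gen, mul_sub, mul_one]
      have h3 := coeff_mul_of r (j (FreeGroup.of k))⁻¹
      have h4 : (r * MonoidAlgebra.of ℤ G (j (FreeGroup.of k))⁻¹ - r).coeff =
        (r * MonoidAlgebra.of ℤ G (j (FreeGroup.of k))⁻¹).coeff - r.coeff := rfl
      rw [h4, h3]
      rfl
    rw [h2, map_sub, hD]
    abel
  have h2 : ∀ (x : ι →₀ R G) (i : ι), D i (theta j x).coeff = (x i).coeff := by
    intro x i
    induction x using Finsupp.induction_linear with
    | zero => rw [map_zero]; exact map_zero _
    | add f g hf hg =>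
      rw [map_add, MonoidAlgebra.coeff_add, map_add, hf, hg, Finsupp.add_apply,
        MonoidAlgebra.coeff_add]
    | single k r =>
      rw [theta, Finsupp.linearCombination_single, smul_eq_mul, h1]
      by_cases hik : i = k
      · subst hik
        rw [if_pos rfl, Finsupp.single_eq_same]
      · rw [if_neg hik, Finsupp.single_eq_of_ne hik]
        rfl
  intro x y hxy
  ext1 i
  apply MonoidAlgebra.ext
  rw [← h2, ← h2, hxy]

theorem gen_mem_range {ι : Type} (j : FreeGroup ι →* G) (v : FreeGroup ι) :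
    gen (j v) ∈ LinearMap.range (theta j) := by
  have hi : ∀ g : G, gen g⁻¹ ∈ LinearMap.range (theta j) → gen g ∈ LinearMap.range (theta j) := by
    intro g hg
    have h1 : gen g = (-MonoidAlgebra.of ℤ G g) • gen g⁻¹ := by
      rw [gen, gen, neg_smul, smul_eq_mul, mul_sub, ← map_mul, mul_inv_cancel, map_one, mul_one]
      abel
    rw [h1]
    exact Submodule.smul_mem _ _ hg
  have hm : ∀ g h : G, gen g ∈ LinearMap.range (theta j) → gen h ∈ LinearMap.range (theta j) →
      gen (g * h) ∈ LinearMap.range (theta j) := by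
    intro g h hg hh
    have h1 : gen (g * h) = MonoidAlgebra.of ℤ G g • gen h + gen g := by
      rw [gen, gen, gen, smul_eq_mul, mul_sub, ← map_mul, mul_one]
      abel
    rw [h1]
    exact Submodule.add_mem _ (Submodule.smul_mem _ _ hh) hg
  have h0 : ∀ i : ι, gen (j (FreeGroup.of i))⁻¹ ∈ LinearMap.range (theta j) := by
    intro i
    refine ⟨Finsupp.single i 1, ?_⟩
    rw [theta, Finsupp.linearCombination_single, one_smul]
  induction v using FreeGroup.induction_on with
  | C1 =>
    rw [map_one]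
    have h1 : gen (1 : G) = 0 := by rw [gen, map_one, sub_self]
    rw [h1]
    exact Submodule.zero_mem _
  | of i => exact hi _ (h0 i)
  | inv_of i _ => rw [map_inv]; exact h0 i
  | mul v w hv hw => rw [map_mul]; exact hm _ _ hv hw

theorem kernel (x0 : X) (hfree : LocallyFree (MulAction.stabilizer G x0)) (s : Set (R G))
    (hs : s.Finite) (h : ∀ x ∈ s, pi0 G x0 x = 0) :
    ∃ (ι : Type) (Θ : (ι →₀ R G) →ₗ[R G] R G),
      Function.Injective Θ ∧ (∀ x, pi0 G x0 (Θ x) = 0) ∧ ∀ x ∈ s, x ∈ LinearMap.range Θ := by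
  obtain ⟨F, hF1, hF2, hF3⟩ := fin_span' x0 s hs h
  let K : Subgroup (MulAction.stabilizer G x0) :=
    Subgroup.closure ((fun c : MulAction.stabilizer G x0 => (c : G)) ⁻¹' F)
  have hK : K.FG := by
    rw [Subgroup.fg_iff]
    exact ⟨_, rfl, hF1.preimage (Subtype.coe_injective.injOn)⟩
  have := hfree K hK
  let j : FreeGroup (IsFreeGroup.Generators K) →* G :=
    (MulAction.stabilizer G x0).subtype.comp (K.subtype.comp
      (IsFreeGroup.toFreeGroup K).symm.toMonoidHom)
  have hj : Function.Injective j :=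
    Subtype.coe_injective.comp (Subtype.coe_injective.comp (IsFreeGroup.toFreeGroup K).symm.injective)
  refine ⟨_, theta j, theta_injective j hj, ?_, ?_⟩
  · intro x
    induction x using Finsupp.induction_linear with
    | zero => rw [map_zero, map_zero]
    | add f g hf hg => rw [map_add, map_add, hf, hg, add_zero]
    | single i r =>
      rw [theta, Finsupp.linearCombination_single, map_smul, gen, map_sub, pi0_of]
      have h1 : (j (FreeGroup.of i))⁻¹ • x0 = x0 := by
        rw [inv_smul_eq_iff]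
        have h2 : j (FreeGroup.of i) ∈ MulAction.stabilizer G x0 := Subtype.prop _
        exact h2.symm
      have h3 : pi0 G x0 (1 : R G) = (Finsupp.single x0 1 : X →₀ ℤ) := by
        have := pi0_of x0 (1 : G)
        rwa [map_one, one_smul] at this
      rw [h1, h3]
      exact (congrArg (fun z : PM G X => r • z) (sub_self (G := PM G X) _)).trans (smul_zero r)
  · intro x hx
    have h1 := hF3 x hx
    refine (Submodule.span_le.2 ?_) h1
    rintro _ ⟨c, hc, rfl⟩
    have h2 : (⟨c, hF2 hc⟩ : MulAction.stabilizer G x0) ∈ K := Subgroup.subset_closure hc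
    have h3 := gen_mem_range j (IsFreeGroup.toFreeGroup K ⟨⟨c, hF2 hc⟩, h2⟩)
    have h4 : j (IsFreeGroup.toFreeGroup K ⟨⟨c, hF2 hc⟩, h2⟩) = c := by
      simp [j]
    rwa [h4] at h3

end Pool.Agent.H361.PD
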