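import Pool.Agent.H361.PD.All
import Pool.Graph.R_pool_sql_team_seeded_3997aac3.Q182.Cc.Sys
import Pool.Graph.R_seed8.Helper270.Tree

/-!
# Walls, median graphs and trees
-/

set_option autoImplicit false

namespace Pool.Agent.H361.PD

open Pool.Agent.Helper158 Finsupp Q182.Cc

/-- derivations into permutation modules with locally free stabilizers are principal -/
def Good (G : Type) [Group G] : Prop :=
  ∀ (X : Type) [MulAction G X] (φ : G → (X →₀ ℤ)),
    (∀ g h, φ (g * h) = φ g + permRep G X g (φ h)) →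
    (∀ g, ∀ x ∈ (φ g).support, LocallyFree (MulAction.stabilizer G x)) →
    ∃ b : X →₀ ℤ, ∀ g, φ g = permRep G X g b - b

variable {G : Type} [Group G] {V Y : Type} [MulAction G V] [MulAction G Y] {A : V → Set Y}

theorem walls (hG : Good G) (heqv : ∀ (g : G) (v : V) (y : Y), y ∈ A v ↔ g • y ∈ A (g • v))
    (hfin : ∀ u v : V, (DF (A u) (A v)).Finite)
    (hfree : ∀ u v : V, ∀ y ∈ A u, y ∉ A v → LocallyFree (MulAction.stabilizer G y)) (v : V) :
    ∃ A' : Set Y, (∀ (g : G) (y : Y), y ∈ A' ↔ g • y ∈ A') ∧ (DF (A v) A').Finite := by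
  classical
  let f : G → Y → ℤ := fun g y => (if y ∈ A (g • v) then 1 else 0) - (if y ∈ A v then 1 else 0)
  have hf : ∀ g y, f g y ≠ 0 → y ∈ DF (A (g • v)) (A v) := by
    intro g y hne h
    apply hne
    simp only [f]
    rw [if_congr h rfl rfl, sub_self]
  let φ : G → (Y →₀ ℤ) := fun g =>
    Finsupp.onFinset (hfin (g • v) v).toFinset (f g) (fun y hy => by
      rw [Set.Finite.mem_toFinset]
      exact hf g y hy)
  have hφ : ∀ g y, φ g y = f g y := fun g y => rfl
  obtain ⟨b, hb⟩ := hG Y φ (by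
      intro g k
      ext y
      rw [Finsupp.add_apply, permRep_apply, hφ, hφ, hφ]
      have e1 : g⁻¹ • y ∈ A (k • v) ↔ y ∈ A ((g * k) • v) := by
        rw [heqv g (k • v), smul_inv_smul, mul_smul]
      have e2 : g⁻¹ • y ∈ A v ↔ y ∈ A (g • v) := by
        rw [heqv g v, smul_inv_smul]
      simp only [f]
      rw [if_congr e1 rfl rfl, if_congr e2 rfl rfl]
      ring) (by
      intro g y hy
      have h1 : y ∈ DF (A (g • v)) (A v) := hf g y (Finsupp.mem_support_iff.1 hy)
      by_cases h2 : y ∈ A v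
      · exact hfree v (g • v) y h2 fun h3 => h1 ⟨fun _ => h2, fun _ => h3⟩
      · refine hfree (g • v) v y ?_ h2
        by_contra h3
        exact h1 ⟨fun h4 => absurd h4 h3, fun h4 => absurd h4 h2⟩)
  let F : Y → ℤ := fun y => (if y ∈ A v then 1 else 0) - b y
  have hF : ∀ (g : G) (y : Y), F (g • y) = F y := by
    intro g y
    have h1 : φ g (g • y) = permRep G Y g b (g • y) - b (g • y) := by rw [hb g]; rfl
    rw [permRep_apply, inv_smul_smul, hφ] at h1
    simp only [f] at h1
    simp only [F]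
    rw [if_congr (heqv g v y).symm rfl rfl] at h1
    linarith
  refine ⟨{y | F y = 1}, fun g y => ?_, ?_⟩
  · rw [Set.mem_ofPred_eq, Set.mem_ofPred_eq, hF]
  · refine b.support.finite_toSet.subset fun y hy => ?_
    by_contra h1
    have h2 : b y = 0 := by
      by_contra h2
      exact h1 (Finsupp.mem_support_iff.2 h2)
    apply hy
    rw [Set.mem_ofPred_eq]
    simp only [F]
    rw [h2, sub_zero]
    by_cases h3 : y ∈ A v
    · simp [h3]
    · simp [h3]

theorem DF_smul (heqv : ∀ (g : G) (v : V) (y : Y), y ∈ A v ↔ g • y ∈ A (g • v)) {A' : Set Y}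
    (hinv : ∀ (g : G) (y : Y), y ∈ A' ↔ g • y ∈ A') (g : G) (u : V) :
    DF (A (g • u)) A' = (fun y => g • y) '' (DF (A u) A') := by
  ext y
  constructor
  · intro hy
    refine ⟨g⁻¹ • y, ?_, smul_inv_smul g y⟩
    rw [mem_DF, heqv g, hinv g (g⁻¹ • y), smul_inv_smul]
    exact hy
  · rintro ⟨z, hz, rfl⟩
    rw [mem_DF] at hz ⊢
    change ¬ (g • z ∈ A (g • u) ↔ g • z ∈ A')
    rwa [← heqv, ← hinv]

/-- bounded orbits -/
theorem bounded (heqv : ∀ (g : G) (v : V) (y : Y), y ∈ A v ↔ g • y ∈ A (g • v)) {A' : Set Y}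
    (hinv : ∀ (g : G) (y : Y), y ∈ A' ↔ g • y ∈ A') {v : V} (hfin : (DF (A v) A').Finite) (g : G) :
    (DF (A v) (A (g • v))).ncard ≤ 2 * (DF (A v) A').ncard := by
  have h1 := DF_smul heqv hinv g v
  have h2 : (DF (A (g • v)) A').Finite := by rw [h1]; exact hfin.image _
  have h3 : (DF (A (g • v)) A').ncard = (DF (A v) A').ncard := by
    rw [h1]
    exact Set.ncard_image_of_injective _ (MulAction.injective g)
  have h4 : DF (A v) (A (g • v)) ⊆ DF (A v) A' ∪ DF (A (g • v)) A' := by
    rw [DF_comm (A (g • v)) A']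
    exact DF_tri _ _ _
  have h5 := Set.ncard_le_ncard h4 (hfin.union h2)
  have h6 := Set.ncard_union_le (DF (A v) A') (DF (A (g • v)) A')
  omega

/-- a commensurate invariant set gives a finite invariant set of vertices -/
theorem Sys.finite_inv (hA : Sys G A) {v : V} {A' : Set Y}
    (hinv : ∀ (g : G) (y : Y), y ∈ A' ↔ g • y ∈ A') (hfin : (DF (A v) A').Finite) :
    ∃ S : Set V, S.Finite ∧ S.Nonempty ∧ ∀ (g : G), ∀ u ∈ S, g • u ∈ S := by
  classical
  have hfin' : ∀ u, (DF (A u) A').Finite := fun u =>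
    ((hA.fin u v).union hfin).subset (DF_tri _ _ _)
  -- minimizers
  have hex : ∃ n, ∃ u : V, (DF (A u) A').ncard = n := ⟨_, v, rfl⟩
  obtain ⟨u₀, hu₀⟩ := Nat.find_spec hex
  have hmin : ∀ u, (DF (A u₀) A').ncard ≤ (DF (A u) A').ncard := by
    intro u
    rw [hu₀]
    exact Nat.find_min' hex ⟨u, rfl⟩
  set S : Set V := {u | (DF (A u) A').ncard = (DF (A u₀) A').ncard} with hS
  refine ⟨S, ?_, ⟨u₀, rfl⟩, ?_⟩
  · set F : Set Y := DF (A u₀) A' with hF
    have hFf : F.Finite := hfin' u₀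
    refine Set.Finite.of_finite_image (f := fun u => A u ∩ F)
      (hFf.powerset.subset (by
        rintro _ ⟨u, _, rfl⟩
        exact Set.inter_subset_right)) ?_
    intro u hu w hw huw
    have huw' : ∀ y ∈ F, (y ∈ A u ↔ y ∈ A w) := by
      intro y hy
      have h1 : y ∈ A u ∩ F ↔ y ∈ A w ∩ F := by
        have h2 : A u ∩ F = A w ∩ F := huw
        rw [h2]
      constructor
      · intro h
        exact (h1.1 ⟨h, hy⟩).1
      · intro h
        exact (h1.2 ⟨h, hy⟩).1
    have key : ∀ u w : V, u ∈ S → (∀ y ∈ F, (y ∈ A u ↔ y ∈ A w)) → ∀ m : V,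
        (∀ y : Y, y ∈ A m ↔ (y ∈ A u ∧ y ∈ A w) ∨ (y ∈ A w ∧ y ∈ A u₀) ∨ (y ∈ A u ∧ y ∈ A u₀)) →
        m = u := by
      intro u w hu h m hm
      have h1 : DF (A m) A' ⊆ DF (A u) A' := by
        intro y hy
        rw [mem_DF] at hy ⊢
        rw [hm] at hy
        by_cases hyF : y ∈ F
        · have h2 := h y hyF
          tauto
        · have h2 : y ∈ A u₀ ↔ y ∈ A' := not_not.1 hyF
          tauto
      have h2 : DF (A m) A' = DF (A u) A' := by
        apply Set.eq_of_subset_of_ncard_le h1 _ (hfin' u)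
        have h3 : (DF (A u) A').ncard = (DF (A u₀) A').ncard := hu
        rw [h3]
        exact hmin m
      apply hA.inj
      ext y
      have h3 : y ∈ DF (A m) A' ↔ y ∈ DF (A u) A' := by rw [h2]
      rw [mem_DF, mem_DF] at h3
      tauto
    obtain ⟨m, hm⟩ := hA.maj u w u₀
    have e1 := key u w hu huw' m hm
    have e2 := key w u hw (fun y hy => (huw' y hy).symm) m (by
      intro y
      rw [hm]
      tauto)
    rw [← e1, e2]
  · intro g u hu
    rw [hS, Set.mem_ofPred_eq] at hu ⊢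
    rw [← hu, DF_smul hA.eqv hinv g u]
    exact Set.ncard_image_of_injective _ (MulAction.injective g)

open scoped Pointwise in
/-- **median graphs** -/
theorem median_fix (hG : Good G) {X : SimpleGraph V} (hX : Median X)
    (hact : ∀ (g : G) (v w : V), X.Adj v w → X.Adj (g • v) (g • w))
    (hfree : ∀ a b : V, X.Adj a b →
      LocallyFree (MulAction.stabilizer G {u : V | X.dist u a < X.dist u b})) :
    ∃ S : Set V, S.Finite ∧ S.Nonempty ∧ ∀ (g : G), ∀ u ∈ S, g • u ∈ S := by
  have hA : Sys G (HS X) := hX.sys hact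
  obtain ⟨v⟩ := hX.1.nonempty
  obtain ⟨A', h1, h2⟩ := walls hG hA.eqv hA.fin (fun u w y hy _ => by
    obtain ⟨-, a, b, hab, rfl⟩ := hy
    exact hfree a b hab) v
  exact Sys.finite_inv hA h1 h2

/-! ### trees -/

section tree

open Pool.Agent.Helper270.Tree

variable {T : SimpleGraph V}

theorem edge_sep (hT : T.IsTree) {v w a b : V} (hvw : T.Adj v w) (hab : T.Adj a b)
    (h1 : T.dist v a < T.dist v b) (h2 : ¬ T.dist w a < T.dist w b) : a = v ∧ b = w := by
  have e1 := hT.dist_eq_dist_add_one_of_adj v hab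
  have e2 := hT.dist_eq_dist_add_one_of_adj w hab
  have e3 := hT.dist_eq_dist_add_one_of_adj a hvw
  have e4 := hT.dist_eq_dist_add_one_of_adj b hvw
  have c1 : T.dist a v = T.dist v a := T.dist_comm
  have c2 : T.dist a w = T.dist w a := T.dist_comm
  have c3 : T.dist b v = T.dist v b := T.dist_comm
  have c4 : T.dist b w = T.dist w b := T.dist_comm
  have o1 : T.dist b a = 1 := SimpleGraph.dist_eq_one_iff_adj.2 hab.symm
  have o2 : T.dist w v = 1 := SimpleGraph.dist_eq_one_iff_adj.2 hvw.symm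
  rcases Nat.eq_zero_or_pos (T.dist v a) with h0 | h0
  · have h3 : v = a := hT.connected.dist_eq_zero_iff.1 h0
    subst h3
    refine ⟨rfl, ?_⟩
    have h4 : T.dist w b = 0 := by omega
    exact (hT.connected.dist_eq_zero_iff.1 h4).symm
  · exfalso
    obtain ⟨q, q0, _, qadj, qd, _⟩ := exists_geod hT v a
    have h3 : T.Adj v (q 1) := by
      have := qadj 0 h0
      rwa [q0] at this
    have h4 : T.dist (q 1) a = T.dist v a - 1 := (qd 1 h0).2
    have c5 : T.dist a (q 1) = T.dist (q 1) a := T.dist_comm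
    have h5 : T.dist b (q 1) ≤ T.dist b a + T.dist a (q 1) := hT.connected.dist_triangle
    have e5 := hT.dist_eq_dist_add_one_of_adj b h3
    have h6 : q 1 = w := parent_unique hT h3.symm hvw.symm (z := b) (by omega) (by omega)
    rw [h6] at h4
    omega

/-- the oriented edges which point away from `v` -/
def TA (T : SimpleGraph V) (v : V) : Set (V × V) := {e | T.Adj e.1 e.2 ∧ T.dist v e.1 < T.dist v e.2}

theorem TA_fin (hT : T.IsTree) (u v : V) : (DF (TA T u) (TA T v)).Finite := by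
  obtain ⟨p⟩ := hT.connected.preconnected u v
  induction p with
  | nil => rw [DF_self]; exact Set.finite_empty
  | @cons a b c hab _ ih =>
    refine (((Set.toFinite {(a, b), (b, a)})).union ih).subset ((DF_tri _ (TA T b) _).trans
      (Set.union_subset_union_left _ ?_))
    rintro ⟨x, y⟩ h
    rw [mem_DF] at h
    by_cases h1 : (x, y) ∈ TA T a
    · have h2 : ¬ T.dist b x < T.dist b y := fun h3 => h ⟨fun _ => ⟨h1.1, h3⟩, fun _ => h1⟩
      obtain ⟨rfl, rfl⟩ := edge_sep hT hab h1.1 h1.2 h2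
      exact Or.inl rfl
    · have h2 : (x, y) ∈ TA T b := by
        by_contra h3
        exact h ⟨fun h4 => absurd h4 h1, fun h4 => absurd h4 h3⟩
      obtain ⟨rfl, rfl⟩ := edge_sep hT hab.symm h2.1 h2.2 fun h3 => h1 ⟨h2.1, h3⟩
      exact Or.inr rfl

theorem TA_line (hT : T.IsTree) {L : ℤ → V} (hL : IsLine T L) (n : ℕ) :
    n ≤ (DF (TA T (L 0)) (TA T (L n))).ncard := by
  classical
  have hinj : Function.Injective fun i : ℕ => ((L i, L (i + 1)) : V × V) := by
    intro i j hij
    have h1 := hL.injective hT (congrArg Prod.fst hij)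
    exact_mod_cast h1
  have h1 : (((Finset.range n).image fun i : ℕ => ((L i, L (i + 1)) : V × V)) : Set (V × V)) ⊆
      DF (TA T (L 0)) (TA T (L n)) := by
    intro e he
    rw [Finset.coe_image] at he
    obtain ⟨i, hi, rfl⟩ := he
    have hi' : i < n := Finset.mem_range.1 (Finset.mem_coe.1 hi)
    rw [mem_DF]
    intro h2
    have h3 : ((L i, L (i + 1)) : V × V) ∈ TA T (L 0) := by
      refine ⟨hL.adj i, ?_⟩
      rw [hL.dist hT, hL.dist hT]
      omega
    have h4 := (h2.1 h3).2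
    rw [hL.dist hT, hL.dist hT] at h4
    omega
  have h2 := Set.ncard_le_ncard h1 (TA_fin hT _ _)
  rwa [Set.ncard_coe_finset, Finset.card_image_of_injective _ hinj, Finset.card_range] at h2

theorem tree_fix (hG : Good G) (hfg : Group.FG G) (h : TreeAct G T)
    (hfree : ∀ a b : V, T.Adj a b →
      LocallyFree (MulAction.stabilizer G ((a, b) : V × V))) :
    ∃ v : V, ∀ g : G, g • v = v := by
  by_contra hcon
  push Not at hcon
  obtain ⟨g, hg⟩ := h.exists_hyperbolic hfg hcon
  obtain ⟨L, l, hax⟩ := h.exists_axis hg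
  have heqv : ∀ (g : G) (v : V) (y : V × V), y ∈ TA T v ↔ g • y ∈ TA T (g • v) := by
    have key : ∀ (g : G) (v : V) (y : V × V), y ∈ TA T v → g • y ∈ TA T (g • v) := by
      rintro g v ⟨a, b⟩ ⟨h1, h2⟩
      refine ⟨h.adj g a b h1, ?_⟩
      change T.dist (g • v) (g • a) < T.dist (g • v) (g • b)
      rw [h.dist_smul, h.dist_smul]
      exact h2
    intro g v y
    refine ⟨key g v y, fun h1 => ?_⟩
    have h2 := key g⁻¹ _ _ h1
    rwa [inv_smul_smul, inv_smul_smul] at h2
  obtain ⟨A', h1, h2⟩ := walls hG heqv (TA_fin h.isTree) (fun u w y hy _ => hfree y.1 y.2 hy.1) (L 0)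
  have h3 := bounded heqv h1 h2 (g ^ (2 * (DF (TA T (L 0)) A').ncard + 1))
  have h4 : g ^ (2 * (DF (TA T (L 0)) A').ncard + 1) • L 0 =
      L (((2 * (DF (TA T (L 0)) A').ncard + 1) * l : ℕ) : ℤ) := by
    have h5 := hax.smul_zpow ((2 * (DF (TA T (L 0)) A').ncard + 1 : ℕ) : ℤ) 0
    rw [zpow_natCast, zero_add] at h5
    rw [h5]
    push_cast
    rfl
  rw [h4] at h3
  have h5 := TA_line h.isTree hax.line ((2 * (DF (TA T (L 0)) A').ncard + 1) * l)
  have h6 := Nat.le_mul_of_pos_right (2 * (DF (TA T (L 0)) A').ncard + 1) hax.pos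
  omega

end tree

end Pool.Agent.H361.PD
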